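import Mathlib

namespace Pool.Agent.Results.MP_ba4d4a_gt.Counter

open EuclideanGeometry Real

abbrev E := EuclideanSpace ℝ (Fin 3)

/-- Angle deficit at vertex `i`: `2π` minus the three face angles at `P i`. -/
noncomputable def curv (P : Fin 4 → E) (i : Fin 4) : ℝ :=
  2 * π - ∑ j : Fin 4, ∑ k : Fin 4, if j < k ∧ j ≠ i ∧ k ≠ i then ∠ (P j) (P i) (P k) else 0

noncomputable def P : Fin 4 → E := ![!₂[2, 2, 1], !₂[2, 1, -2], !₂[0, 0, 0], !₂[3, 0, 0]]

lemma ang (a b c : E) : ∠ a b c = arccos (((a 0 - b 0) * (c 0 - b 0) + (a 1 - b 1) * (c 1 - b 1) +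
    (a 2 - b 2) * (c 2 - b 2)) / √(((a 0 - b 0) ^ 2 + (a 1 - b 1) ^ 2 + (a 2 - b 2) ^ 2) *
      ((c 0 - b 0) ^ 2 + (c 1 - b 1) ^ 2 + (c 2 - b 2) ^ 2))) := by
  unfold EuclideanGeometry.angle InnerProductGeometry.angle
  rw [EuclideanSpace.norm_eq, EuclideanSpace.norm_eq, ← Real.sqrt_mul (by positivity)]
  simp [PiLp.inner_apply, Fin.sum_univ_three, mul_comm]

lemma lt_of (x y r : ℝ) (hx : 0 ≤ x) (hy : 0 < y) (hr : 0 < r) (hr1 : r ≤ 1)
    (h : x ^ 2 < r ^ 2 * y) : arccos r < arccos (x / √y) := by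
  have hs : 0 < √y := Real.sqrt_pos.2 hy
  apply Real.arccos_lt_arccos _ _ hr1
  · have : 0 ≤ x / √y := by positivity
    linarith
  · rw [div_lt_iff₀ hs]
    apply lt_of_pow_lt_pow_left₀ 2 (by positivity)
    rw [mul_pow, Real.sq_sqrt hy.le]
    exact h

lemma s81 : √(81 : ℝ) = 9 := by
  rw [show (81 : ℝ) = 9 ^ 2 by norm_num, Real.sqrt_sq (by norm_num)]

lemma c2 : curv P 2 = 2 * π - (arccos (4 / 9) + arccos (6 / 9) + arccos (6 / 9)) := by
  simp only [curv, Fin.sum_univ_four, ang, P]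
  simp
  norm_num [s81]

lemma c0 : curv P 0 = 2 * π - (arccos (5 / √90) + arccos (5 / √60) + arccos (3 / √54)) := by
  simp only [curv, Fin.sum_univ_four, ang, P]
  simp
  norm_num

lemma c1 : curv P 1 = 2 * π - (arccos (5 / √90) + arccos (5 / √60) + arccos (3 / √54)) := by
  simp only [curv, Fin.sum_univ_four, ang, P]
  simp
  norm_num

lemma dd (a b : E) : dist a b = √((a 0 - b 0) ^ 2 + (a 1 - b 1) ^ 2 + (a 2 - b 2) ^ 2) := by
  rw [EuclideanSpace.dist_eq]
  simp [Fin.sum_univ_three, Real.dist_eq]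

theorem result : ∃ P : Fin 4 → E, AffineIndependent ℝ P ∧ ∃ i j m : Fin 4, i ≠ j ∧
    (∀ k l : Fin 4, dist (P k) (P l) ≤ dist (P i) (P j)) ∧
      curv P i < curv P m ∧ curv P j < curv P m := by
  have h1 := lt_of 5 90 (6 / 9) (by norm_num) (by norm_num) (by norm_num) (by norm_num)
    (by norm_num)
  have h2 := lt_of 5 60 (6 / 9) (by norm_num) (by norm_num) (by norm_num) (by norm_num)
    (by norm_num)
  have h3 := lt_of 3 54 (4 / 9) (by norm_num) (by norm_num) (by norm_num) (by norm_num)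
    (by norm_num)
  refine ⟨P, ?_, 0, 1, 2, by decide, ?_, ?_, ?_⟩
  · rw [affineIndependent_iff_of_fintype]
    intro w hw hs
    rw [Finset.weightedVSub_eq_linear_combination _ hw] at hs
    have e0 := congrFun (congrArg WithLp.ofLp hs) 0
    have e1 := congrFun (congrArg WithLp.ofLp hs) 1
    have e2 := congrFun (congrArg WithLp.ofLp hs) 2
    simp [Fin.sum_univ_four, P] at e0 e1 e2 hw
    intro i
    fin_cases i <;> simp <;> linarith
  · intro k l
    rw [dd, dd]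
    apply Real.sqrt_le_sqrt
    fin_cases k <;> fin_cases l <;> simp [P] <;> norm_num
  · rw [c0, c2]; linarith
  · rw [c1, c2]; linarith

end Pool.Agent.Results.MP_ba4d4a_gt.Counter
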